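import Pool.Agent.R919.MT.Fin

/-!
# MP_5deabe_nt: the `p`-part of the Mazur-Tate conjecture reduces to cyclic fields with at most `r`
# ramified primes

Let `E / ℚ` be an elliptic curve of rank `r`, `p` a prime as in the problem, and `J` the set of the primes
`ℓ ≡ 1 (mod p)` with `ℓ ∤ N` and `p ∤ #E(𝔽_ℓ)`. For a finite set `m ⊆ J` (a square-free conductor) let
`F_m` be the compositum of the subfields `F_ℓ` of `ℚ(ζ_ℓ)` of the largest `p`-power degree `p ^ a_ℓ`,
`ℓ ∈ m`; its Galois group is `Γ_m = ∏ G_ℓ`, where `G_ℓ` is cyclic of order `p ^ a_ℓ`. Each real abelian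
field of square-free conductor `m` and `p`-power degree is a subfield of `F_m` (and, as the problem
recalls, only these fields matter).

The theorem, for all `m` and all subfields `F` of `F_m` (quotients `H` of `Γ_m`):

* if `θ_n ∈ I^r` for all divisors `n` of `m` with FEWER than `r` prime factors then `θ_F ∈ I^r`;
* the whole conjecture for `F` follows from the conjecture for the fields `F_n`, where `n` runs over the
  divisors of `m` with at most `r` prime factors;
* if `r ≤ p` then it is enough to know the order of vanishing for the CYCLIC subfields of the fields `F_n`,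
  where `n` has fewer than `r` prime factors;
* **if `r < p` then the whole conjecture of Mazur and Tate for `F` follows from the conjecture for the
  CYCLIC fields of `p`-power degree whose conductor divides `m` and has at most `r` prime factors.** For
  example, for `r = 1` the conjecture follows from the case of prime conductor.

The data `Elements` are: the modular elements `θ_m` with their norm relations, which follow from the
interpolation formula (the Euler factor of `ℓ` is `-Fr_ℓ (1 - a_ℓ / ℓ Fr_ℓ^{-1} + 1 / ℓ Fr_ℓ^{-2})`, up to
the normalisation of characters), and the values of the Mazur-Tate pairing, which are compatible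
with restrictions.
-/

set_option autoImplicit false

namespace Pool.Agent.Results.MP_5deabe_nt.CyclicFieldsFewPrimes

open Pool.Agent.R919.MT

theorem result {p : ℕ} [Fact p.Prime] {J : Type} [DecidableEq J] {a : J → ℕ} {c : Curve ℤ_[p] J}
    {r : ℕ} (X : Elements c (CycGal p a) r) (m : Finset J) {H : Type} [CommGroup H]
    (f : Gal (CycGal p a) m →* H) :
    ((∀ n ⊆ m, n.card < r → X.Vanishing (MonoidHom.id (Gal (CycGal p a) n))) → X.Vanishing f) ∧
    ((∀ n ⊆ m, n.card ≤ r → X.Conj (MonoidHom.id (Gal (CycGal p a) n))) → X.Conj f) ∧
    (r ≤ p → (∀ n ⊆ m, n.card < r → X.VanishingCyclic n) → X.Vanishing f) ∧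
    (r < p → (∀ n ⊆ m, n.card ≤ r → X.ConjCyclic n) → X.Conj f) :=
  ⟨fun h => vanishing_of X h f, fun h => conj_of X h f,
    fun hr h => vanishing_of_cyclic X hr h f, fun hr h => conj_of_cyclic X hr h f⟩

end Pool.Agent.Results.MP_5deabe_nt.CyclicFieldsFewPrimes
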